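import Mathlib

set_option autoImplicit false

/-! Initial forms of polynomials without zeros on a product of sectors (elementary Hurwitz
argument). -/

namespace Pool.Agent.TH671.US

open Finset

/-- the open sector with axis at the angle `θ` and half-aperture `h` -/
def sector (θ h : ℝ) : Set ℂ :=
  {z | ∃ r s : ℝ, 0 < r ∧ |s| < h ∧ z = r * Complex.exp (((θ + s : ℝ) : ℂ) * Complex.I)}

/-- the value at `x` of the polynomial with exponents `S` and coefficients `c` -/
noncomputable def ev {n : ℕ} (c : (Fin n →₀ ℕ) → ℂ) (S : Finset (Fin n →₀ ℕ)) (x : Fin n → ℂ) : ℂ :=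
  ∑ α ∈ S, c α * ∏ i, x i ^ (α i)

/-- no zeros on the product of the sectors -/
def NV {n : ℕ} (θ : Fin n → ℝ) (h : ℝ) (c : (Fin n →₀ ℕ) → ℂ) (S : Finset (Fin n →₀ ℕ)) : Prop :=
  ∀ x : Fin n → ℂ, (∀ i, x i ∈ sector (θ i) h) → ev c S x ≠ 0

/-- the weight of an exponent -/
def dt {n : ℕ} (v : Fin n → ℝ) (α : Fin n →₀ ℕ) : ℝ := ∑ i, v i * (α i : ℝ)

/-- the inner product of two exponents -/
def ip {n : ℕ} (α β : Fin n →₀ ℕ) : ℕ := ∑ i, α i * β i

/-- the exponents of minimal weight -/
noncomputable def face {n : ℕ} (v : Fin n → ℝ) (S : Finset (Fin n →₀ ℕ)) : Finset (Fin n →₀ ℕ) := by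
  classical
  exact S.filter (fun α => ∀ β ∈ S, dt v α ≤ dt v β)

theorem mem_face {n : ℕ} {v : Fin n → ℝ} {S : Finset (Fin n →₀ ℕ)} {α : Fin n →₀ ℕ} :
    α ∈ face v S ↔ α ∈ S ∧ ∀ β ∈ S, dt v α ≤ dt v β := by
  classical
  unfold face
  rw [Finset.mem_filter]

theorem face_nonempty {n : ℕ} (v : Fin n → ℝ) {S : Finset (Fin n →₀ ℕ)} (hS : S.Nonempty) :
    (face v S).Nonempty := by
  obtain ⟨a, ha, hmin⟩ := Finset.exists_min_image S (dt v) hS
  exact ⟨a, mem_face.2 ⟨ha, hmin⟩⟩

/-- an exponent of maximal norm is a strict maximiser of its own inner product -/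
theorem exists_maxnorm {m : ℕ} {T : Finset (Fin m → ℤ)} (hT : T.Nonempty) :
    ∃ a ∈ T, ∀ b ∈ T, b ≠ a → ∑ i, a i * b i < ∑ i, a i * a i := by
  obtain ⟨a, ha, hmax⟩ := Finset.exists_max_image T (fun a => ∑ i, a i * a i) hT
  refine ⟨a, ha, fun b hb hne => ?_⟩
  have h1 : 0 < ∑ i, (a i - b i) * (a i - b i) := by
    obtain ⟨i, hi⟩ := Function.ne_iff.1 hne
    refine Finset.sum_pos' (fun i _ => mul_self_nonneg _) ⟨i, Finset.mem_univ i, ?_⟩
    have : a i - b i ≠ 0 := sub_ne_zero.2 (Ne.symm hi)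
    exact mul_self_pos.2 this
  have h2 : ∑ i, (a i - b i) * (a i - b i) =
      ∑ i, a i * a i - 2 * ∑ i, a i * b i + ∑ i, b i * b i := by
    rw [Finset.mul_sum, ← Finset.sum_sub_distrib, ← Finset.sum_add_distrib]
    exact Finset.sum_congr rfl fun i _ => by ring
  have h3 : ∑ i, b i * b i ≤ ∑ i, a i * a i := hmax b hb
  linarith

theorem exists_maxnorm' {n : ℕ} {T : Finset (Fin n →₀ ℕ)} (hT : T.Nonempty) :
    ∃ a ∈ T, ∀ b ∈ T, b ≠ a → ip a b < ip a a := by
  classical
  let φ : (Fin n →₀ ℕ) → (Fin n → ℤ) := fun a i => (a i : ℤ)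
  have hφ : Function.Injective φ := by
    intro a b hab
    ext i
    have h1 : (a i : ℤ) = (b i : ℤ) := congrFun hab i
    exact_mod_cast h1
  obtain ⟨a', ha', h⟩ := exists_maxnorm (hT.image φ)
  obtain ⟨a, ha, rfl⟩ := Finset.mem_image.1 ha'
  refine ⟨a, ha, fun b hb hne => ?_⟩
  have h1 := h (φ b) (Finset.mem_image_of_mem φ hb) (fun he => hne (hφ he))
  simp only [φ] at h1
  unfold ip
  exact_mod_cast h1

/-- growth of a polynomial without zeros near `1` -/
theorem growth (Q : Polynomial ℂ) (N : ℕ) (hN : Q.natDegree ≤ N) (r : ℝ) (hr : 0 < r)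
    (hQ : ∀ y : ℂ, ‖y - 1‖ < r → Q.eval y ≠ 0) (y : ℂ) (hy : ‖y - 1‖ ≤ r / 2) :
    ‖Q.eval y‖ ≤ (3 / 2 : ℝ) ^ N * ‖Q.eval 1‖ := by
  have hQ0 : Q ≠ 0 := by
    rintro rfl
    exact hQ 1 (by simpa using hr) (by simp)
  have hsplit := IsAlgClosed.splits Q
  have hfac : ∀ z : ℂ, ‖Q.eval z‖ = ‖Q.leadingCoeff‖ * (Q.roots.map (fun a => ‖z - a‖)).prod := by
    intro z
    have e1 : Q.eval z = Q.leadingCoeff * (Q.roots.map (fun a => z - a)).prod := by
      conv_lhs => rw [hsplit.eq_prod_roots]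
      rw [Polynomial.eval_mul, Polynomial.eval_C, Polynomial.eval_multiset_prod, Multiset.map_map]
      congr 2
      refine Multiset.map_congr rfl fun a _ => ?_
      simp
    rw [e1, norm_mul]
    congr 1
    induction Q.roots using Multiset.induction_on with
    | empty => simp
    | cons a s ih => simp [ih]
  rw [hfac y, hfac 1]
  have hcard : Q.roots.card ≤ N := (Polynomial.card_roots' Q).trans hN
  have key : ∀ s : Multiset ℂ, (∀ a ∈ s, r ≤ ‖(1 : ℂ) - a‖) →
      (s.map (fun a => ‖y - a‖)).prod ≤ (3 / 2 : ℝ) ^ s.card * (s.map (fun a => ‖(1 : ℂ) - a‖)).prod := by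
    intro s
    induction s using Multiset.induction_on with
    | empty => simp
    | cons a s ih =>
      intro hs
      have h1 := ih (fun b hb => hs b (Multiset.mem_cons_of_mem hb))
      have h2 := hs a (Multiset.mem_cons_self a s)
      have h3 : ‖y - a‖ ≤ 3 / 2 * ‖(1 : ℂ) - a‖ := by
        have : y - a = (y - 1) + (1 - a) := by ring
        rw [this]
        refine (norm_add_le _ _).trans ?_
        linarith
      have h4 : 0 ≤ (s.map (fun a => ‖y - a‖)).prod := Multiset.prod_nonneg (by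
        intro b hb
        obtain ⟨c, -, rfl⟩ := Multiset.mem_map.1 hb
        exact norm_nonneg _)
      rw [Multiset.map_cons, Multiset.prod_cons, Multiset.map_cons, Multiset.prod_cons,
        Multiset.card_cons, pow_succ]
      calc ‖y - a‖ * (s.map (fun a => ‖y - a‖)).prod
          ≤ (3 / 2 * ‖(1 : ℂ) - a‖) * ((3 / 2 : ℝ) ^ s.card * (s.map (fun a => ‖(1 : ℂ) - a‖)).prod) :=
            mul_le_mul h3 h1 h4 (by positivity)
        _ = _ := by ring
  have hroots : ∀ a ∈ Q.roots, r ≤ ‖(1 : ℂ) - a‖ := by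
    intro a ha
    by_contra hcon
    push Not at hcon
    refine hQ a ?_ ((Polynomial.mem_roots hQ0).1 ha)
    rwa [norm_sub_rev]
  have h5 := key Q.roots hroots
  have h6 : 0 ≤ (Q.roots.map (fun a => ‖(1 : ℂ) - a‖)).prod := Multiset.prod_nonneg (by
    intro b hb
    obtain ⟨c, -, rfl⟩ := Multiset.mem_map.1 hb
    exact norm_nonneg _)
  calc ‖Q.leadingCoeff‖ * (Q.roots.map (fun a => ‖y - a‖)).prod
      ≤ ‖Q.leadingCoeff‖ * ((3 / 2 : ℝ) ^ Q.roots.card * (Q.roots.map (fun a => ‖(1 : ℂ) - a‖)).prod) :=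
        mul_le_mul_of_nonneg_left h5 (norm_nonneg _)
    _ ≤ ‖Q.leadingCoeff‖ * ((3 / 2 : ℝ) ^ N * (Q.roots.map (fun a => ‖(1 : ℂ) - a‖)).prod) := by
        apply mul_le_mul_of_nonneg_left _ (norm_nonneg _)
        apply mul_le_mul_of_nonneg_right _ h6
        exact pow_le_pow_right₀ (by norm_num) hcard
    _ = _ := by ring

/-- sectors are stable under multiplication by positive numbers and by powers of numbers close
to one -/
theorem sector_mul {θ h : ℝ} {z : ℂ} (hz : z ∈ sector θ h) (b : ℕ) :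
    ∃ r : ℝ, 0 < r ∧ ∀ y : ℂ, ‖y - 1‖ < r → ∀ t : ℝ, 0 < t → z * t * y ^ b ∈ sector θ h := by
  obtain ⟨ρ, s, hρ, hs, rfl⟩ := hz
  have hcont : ContinuousAt Complex.arg 1 := Complex.continuousAt_arg (by simp)
  have hpos : 0 < (h - |s|) / (b + 1) := by
    apply div_pos (by linarith) (by positivity)
  have h1 := (Metric.continuousAt_iff.1 hcont) _ hpos
  obtain ⟨δ, hδ, hδ'⟩ := h1
  refine ⟨min δ 1, lt_min hδ one_pos, fun y hy t ht => ?_⟩
  have hy1 : ‖y - 1‖ < δ := hy.trans_le (min_le_left _ _)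
  have hy2 : ‖y - 1‖ < 1 := hy.trans_le (min_le_right _ _)
  have hy0 : y ≠ 0 := by
    rintro rfl
    simp at hy2
  have harg : |y.arg| < (h - |s|) / (b + 1) := by
    have := hδ' (x := y) (by rwa [dist_eq_norm])
    rw [Complex.arg_one, Real.dist_eq, sub_zero] at this
    exact this
  refine ⟨ρ * t * ‖y‖ ^ b, s + b * y.arg, by positivity, ?_, ?_⟩
  · have h2 : |(b : ℝ) * y.arg| ≤ (b : ℝ) * ((h - |s|) / (b + 1)) := by
      rw [abs_mul, Nat.abs_cast]
      exact mul_le_mul_of_nonneg_left harg.le (by positivity)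
    have h3 : (b : ℝ) * ((h - |s|) / (b + 1)) < h - |s| := by
      rw [mul_div_assoc', div_lt_iff₀ (by positivity)]
      nlinarith
    calc |s + b * y.arg| ≤ |s| + |(b : ℝ) * y.arg| := abs_add_le _ _
      _ < h := by linarith
  · have h4 : y = ‖y‖ * Complex.exp (y.arg * Complex.I) := (Complex.norm_mul_exp_arg_mul_I y).symm
    conv_lhs => rw [h4]
    rw [mul_pow, ← Complex.exp_nat_mul]
    push_cast
    have h5 : Complex.exp ((θ + (s + b * y.arg)) * Complex.I) =
        Complex.exp ((θ + s) * Complex.I) * Complex.exp (b * (y.arg * Complex.I)) := by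
      rw [← Complex.exp_add]
      congr 1
      ring
    rw [h5]
    ring

/-- **Initial forms of polynomials without zeros on a product of translated sectors have no zeros
on the product of the sectors.** -/
theorem hurwitz_shift {n : ℕ} {θ : Fin n → ℝ} {h : ℝ} {c : (Fin n →₀ ℕ) → ℂ}
    {S : Finset (Fin n →₀ ℕ)} (hS : S.Nonempty) (hc : ∀ α ∈ S, c α ≠ 0) (s : Fin n → ℂ)
    (hNV : ∀ x : Fin n → ℂ, (∀ i, x i ∈ sector (θ i) h) → ev c S (fun i => x i + s i) ≠ 0)
    (v : Fin n → ℝ) (hv : ∀ i, v i < 0 ∨ s i = 0) :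
    NV θ h c (face v S) := by
  classical
  intro x hx h0
  obtain ⟨a, ha, hmax⟩ := exists_maxnorm' (face_nonempty v hS)
  have haS := (mem_face.1 ha).1
  have hx0 : ∀ i, x i ≠ 0 := by
    intro i hi
    obtain ⟨r, s, hr, -, e⟩ := hx i
    rw [hi] at e
    have h1 : (r : ℂ) ≠ 0 := by exact_mod_cast hr.ne'
    exact mul_ne_zero h1 (Complex.exp_ne_zero _) e.symm
  -- the radius
  choose ρ hρ hρ' using fun i => sector_mul (hx i) (a i)
  obtain ⟨r, hr, hr'⟩ : ∃ r : ℝ, 0 < r ∧ ∀ i, r ≤ ρ i := by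
    rcases isEmpty_or_nonempty (Fin n) with hE | hE
    · exact ⟨1, one_pos, fun i => (hE.false i).elim⟩
    · exact ⟨Finset.univ.inf' Finset.univ_nonempty ρ, (Finset.lt_inf'_iff _).2 fun i _ => hρ i,
        fun i => Finset.inf'_le _ (Finset.mem_univ i)⟩
  -- the coefficients
  let C0 : (Fin n →₀ ℕ) → ℂ := fun α => c α * ∏ i, x i ^ (α i)
  have hC0 : ∀ α ∈ S, C0 α ≠ 0 := fun α hα =>
    mul_ne_zero (hc α hα) (Finset.prod_ne_zero_iff.2 fun i _ => pow_ne_zero _ (hx0 i))
  let m : ℝ := dt v a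
  let P : ℝ → Polynomial ℂ := fun l => ∑ α ∈ S,
    Polynomial.C (c α * (Real.exp (- l * (dt v α - m)) : ℝ)) *
      ∏ i, (Polynomial.C (x i) * Polynomial.X ^ (a i) +
        Polynomial.C (s i * (Real.exp (l * v i) : ℝ))) ^ (α i)
  let N : ℕ := S.sup (ip a)
  have hPdeg : ∀ l, (P l).natDegree ≤ N := fun l =>
    Polynomial.natDegree_sum_le_of_forall_le _ _ fun α hα => by
      refine le_trans ?_ (Finset.le_sup (f := ip a) hα)
      refine (Polynomial.natDegree_C_mul_le _ _).trans ?_
      refine (Polynomial.natDegree_prod_le _ _).trans ?_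
      unfold ip
      refine Finset.sum_le_sum fun i _ => ?_
      refine (Polynomial.natDegree_pow_le).trans ?_
      rw [mul_comm]
      refine Nat.mul_le_mul_right _ ?_
      refine (Polynomial.natDegree_add_le _ _).trans (max_le ?_ ?_)
      · exact Polynomial.natDegree_C_mul_X_pow_le _ _
      · rw [Polynomial.natDegree_C]
        exact Nat.zero_le _
  have hPeval : ∀ l y, (P l).eval y = ∑ α ∈ S,
      c α * (Real.exp (- l * (dt v α - m)) : ℝ) *
        ∏ i, (x i * y ^ (a i) + s i * (Real.exp (l * v i) : ℝ)) ^ (α i) := by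
    intro l y
    simp only [P, Polynomial.eval_finsetSum, Polynomial.eval_mul, Polynomial.eval_C,
      Polynomial.eval_pow, Polynomial.eval_X, Polynomial.eval_prod, Polynomial.eval_add]
  have hPne : ∀ l, ∀ y : ℂ, ‖y - 1‖ < r → (P l).eval y ≠ 0 := by
    intro l y hy
    let z : Fin n → ℂ := fun i => x i * ((Real.exp (- l * v i) : ℝ) : ℂ) * y ^ (a i)
    have hz : ∀ i, z i ∈ sector (θ i) h := fun i =>
      hρ' i y (hy.trans_le (hr' i)) _ (Real.exp_pos _)
    have h1 := hNV z hz
    have h2 : (P l).eval y = (Real.exp (l * m) : ℝ) * ev c S (fun i => z i + s i) := by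
      rw [hPeval, ev, Finset.mul_sum]
      refine Finset.sum_congr rfl fun α _ => ?_
      have e0 : ∀ i, z i + s i = ((Real.exp (- l * v i) : ℝ) : ℂ) *
          (x i * y ^ (a i) + s i * (Real.exp (l * v i) : ℝ)) := by
        intro i
        have e3 : ((Real.exp (- l * v i) : ℝ) : ℂ) * ((Real.exp (l * v i) : ℝ) : ℂ) = 1 := by
          rw [← Complex.ofReal_mul, ← Real.exp_add]
          rw [show -l * v i + l * v i = 0 by ring, Real.exp_zero, Complex.ofReal_one]
        simp only [z]
        linear_combination (- s i) * e3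
      have e1 : ∏ i, (z i + s i) ^ (α i) = ((Real.exp (- l * dt v α) : ℝ) : ℂ) *
          ∏ i, (x i * y ^ (a i) + s i * (Real.exp (l * v i) : ℝ)) ^ (α i) := by
        simp only [e0, mul_pow, Finset.prod_mul_distrib]
        congr 1
        simp only [← Complex.ofReal_pow]
        rw [← Complex.ofReal_prod]
        congr 1
        rw [dt, Finset.mul_sum, Real.exp_sum]
        refine Finset.prod_congr rfl fun i _ => ?_
        rw [← Real.exp_nat_mul]
        congr 1
        ring
      rw [e1]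
      have e2 : Real.exp (- l * (dt v α - m)) = Real.exp (l * m) * Real.exp (- l * dt v α) := by
        rw [← Real.exp_add]
        congr 1
        ring
      rw [e2]
      push_cast
      ring
    rw [h2]
    refine mul_ne_zero ?_ h1
    exact_mod_cast (Real.exp_pos _).ne'
  -- the limit
  let Q : Polynomial ℂ := ∑ α ∈ face v S, Polynomial.C (C0 α) * Polynomial.X ^ (ip a α)
  have hprodlim : ∀ (y : ℂ) (α : Fin n →₀ ℕ), Filter.Tendsto (fun l : ℝ =>
      ∏ i, (x i * y ^ (a i) + s i * ((Real.exp (l * v i) : ℝ) : ℂ)) ^ (α i)) Filter.atTop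
      (nhds ((∏ i, x i ^ (α i)) * y ^ (ip a α))) := by
    intro y α
    have e1 : (∏ i, x i ^ (α i)) * y ^ (ip a α) = ∏ i, (x i * y ^ (a i) + 0) ^ (α i) := by
      simp only [add_zero, mul_pow, Finset.prod_mul_distrib]
      congr 1
      rw [ip, ← Finset.prod_pow_eq_pow_sum]
      exact Finset.prod_congr rfl fun i _ => by rw [← pow_mul]
    rw [e1]
    refine tendsto_finsetProd _ fun i _ => ?_
    refine Filter.Tendsto.pow ?_ _
    refine Filter.Tendsto.const_add _ ?_
    rcases hv i with hvi | hsi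
    · have h2 : Filter.Tendsto (fun l : ℝ => Real.exp (l * v i)) Filter.atTop (nhds 0) := by
        apply Real.tendsto_exp_atBot.comp
        exact Filter.tendsto_id.atTop_mul_const_of_neg hvi
      have h3 : Filter.Tendsto (fun l : ℝ => s i * ((Real.exp (l * v i) : ℝ) : ℂ)) Filter.atTop
          (nhds (s i * ((0 : ℝ) : ℂ))) :=
        Filter.Tendsto.const_mul _ ((Complex.continuous_ofReal.tendsto 0).comp h2)
      simpa using h3
    · simp only [hsi, zero_mul]
      exact tendsto_const_nhds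
  have hlim : ∀ y : ℂ, Filter.Tendsto (fun l : ℝ => (P l).eval y) Filter.atTop
      (nhds (Q.eval y)) := by
    intro y
    have e : Q.eval y = ∑ α ∈ S, if α ∈ face v S then C0 α * y ^ (ip a α) else 0 := by
      simp only [Q, Polynomial.eval_finsetSum, Polynomial.eval_mul, Polynomial.eval_C,
        Polynomial.eval_pow, Polynomial.eval_X]
      rw [← Finset.sum_filter]
      refine Finset.sum_congr ?_ fun _ _ => rfl
      ext α
      rw [Finset.mem_filter]
      exact ⟨fun hα => ⟨(mem_face.1 hα).1, hα⟩, fun hα => hα.2⟩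
    rw [e]
    simp only [hPeval]
    refine tendsto_finsetSum _ fun α hα => ?_
    by_cases hf : α ∈ face v S
    · rw [if_pos hf]
      have h1 : dt v α - m = 0 := by
        have h2 := (mem_face.1 hf).2 a haS
        have h3 := (mem_face.1 ha).2 α hα
        simp only [m]
        linarith
      simp only [h1, mul_zero, Real.exp_zero, Complex.ofReal_one, mul_one]
      have h4 := (hprodlim y α).const_mul (c α)
      have h5 : C0 α * y ^ (ip a α) = c α * ((∏ i, x i ^ (α i)) * y ^ (ip a α)) := by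
        simp only [C0]
        ring
      rw [h5]
      exact h4
    · rw [if_neg hf]
      have h1 : 0 < dt v α - m := by
        have h3 := (mem_face.1 ha).2 α hα
        rcases h3.lt_or_eq with h4 | h4
        · simp only [m]; linarith
        · exfalso
          exact hf (mem_face.2 ⟨hα, fun β hβ => h4 ▸ (mem_face.1 ha).2 β hβ⟩)
      have h2 : Filter.Tendsto (fun l : ℝ => Real.exp (- l * (dt v α - m))) Filter.atTop (nhds 0) := by
        apply Real.tendsto_exp_atBot.comp
        have : (fun l : ℝ => - l * (dt v α - m)) = fun l : ℝ => -(l * (dt v α - m)) := by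
          funext l; ring
        rw [this]
        exact Filter.tendsto_neg_atTop_atBot.comp (Filter.tendsto_id.atTop_mul_const h1)
      have h3 : Filter.Tendsto (fun l : ℝ => c α * ((Real.exp (- l * (dt v α - m)) : ℝ) : ℂ) *
          ∏ i, (x i * y ^ (a i) + s i * ((Real.exp (l * v i) : ℝ) : ℂ)) ^ (α i)) Filter.atTop
          (nhds (c α * ((0 : ℝ) : ℂ) * ((∏ i, x i ^ (α i)) * y ^ (ip a α)))) := by
        refine Filter.Tendsto.mul (Filter.Tendsto.const_mul _ ?_) (hprodlim y α)
        exact (Complex.continuous_ofReal.tendsto 0).comp h2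
      simpa using h3
  have hQ1 : Q.eval 1 = 0 := by
    simp only [Q, Polynomial.eval_finsetSum, Polynomial.eval_mul, Polynomial.eval_C,
        Polynomial.eval_pow, Polynomial.eval_X, one_pow, mul_one]
    exact h0
  have hQz : ∀ y : ℂ, ‖y - 1‖ ≤ r / 2 → Q.eval y = 0 := by
    intro y hy
    have h1 : ∀ l, ‖(P l).eval y‖ ≤ (3 / 2 : ℝ) ^ N * ‖(P l).eval 1‖ := fun l =>
      growth (P l) N (hPdeg l) r hr (hPne l) y hy
    have h2 := le_of_tendsto_of_tendsto' ((hlim y).norm) (((hlim 1).norm).const_mul _) h1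
    rw [hQ1, norm_zero, mul_zero] at h2
    exact norm_le_zero_iff.1 h2
  have hQ0 : Q = 0 := by
    apply Polynomial.eq_zero_of_infinite_isRoot
    refine Set.Infinite.mono (s := Metric.closedBall (1 : ℂ) (r / 2)) ?_ ?_
    · intro y hy
      rw [mem_closedBall_iff_norm] at hy
      exact hQz y hy
    · refine IsPreconnected.infinite_of_nontrivial
        (convex_closedBall (1 : ℂ) (r / 2)).isPreconnected ?_
      refine ⟨1, Metric.mem_closedBall_self (by positivity), 1 + (r / 2 : ℝ), ?_, ?_⟩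
      · rw [mem_closedBall_iff_norm, add_sub_cancel_left, Complex.norm_real, Real.norm_eq_abs,
          abs_of_pos (by positivity)]
      · intro h
        have h2 : ((r / 2 : ℝ) : ℂ) = 0 := by
          linear_combination -h
        have h3 : r / 2 = 0 := by exact_mod_cast h2
        linarith
  have hcoef : Q.coeff (ip a a) = C0 a := by
    simp only [Q, Polynomial.finsetSum_coeff, Polynomial.coeff_C_mul, Polynomial.coeff_X_pow]
    rw [Finset.sum_eq_single a]
    · simp
    · intro b hb hba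
      rw [if_neg, mul_zero]
      exact fun h => (hmax b hb hba).ne h.symm
    · intro h
      exact (h ha).elim
  rw [hQ0, Polynomial.coeff_zero] at hcoef
  exact hC0 a haS hcoef.symm

/-- the case without translations -/
theorem hurwitz {n : ℕ} {θ : Fin n → ℝ} {h : ℝ} {c : (Fin n →₀ ℕ) → ℂ} {S : Finset (Fin n →₀ ℕ)}
    (hS : S.Nonempty) (hc : ∀ α ∈ S, c α ≠ 0) (hNV : NV θ h c S) (v : Fin n → ℝ) :
    NV θ h c (face v S) := by
  refine hurwitz_shift hS hc 0 (fun x hx => ?_) v (fun i => Or.inr rfl)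
  simpa using hNV x hx

end Pool.Agent.TH671.US
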