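import Pool.Agent.TH671.US.A

set_option autoImplicit false

/-! Edges of the Newton polytope: every polynomial with two exponents and without zeros on a product
of sectors has an iterated initial form with the same property and with collinear exponents, and
the primitive direction of these is short. -/

namespace Pool.Agent.TH671.US

open Finset

/-- all differences are parallel -/
def Coll {n : ℕ} (S : Finset (Fin n →₀ ℕ)) : Prop :=
  ∀ α ∈ S, ∀ β ∈ S, ∀ γ ∈ S, ∀ i j,
    ((β i : ℤ) - α i) * ((γ j : ℤ) - α j) = ((β j : ℤ) - α j) * ((γ i : ℤ) - α i)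

theorem dt_sub {n : ℕ} (v : Fin n → ℝ) (α β : Fin n →₀ ℕ) :
    dt v α - dt v β = ∑ i, v i * ((α i : ℝ) - β i) := by
  unfold dt
  rw [← Finset.sum_sub_distrib]
  exact Finset.sum_congr rfl fun i _ => by ring

theorem exists_proper_face {n : ℕ} {S : Finset (Fin n →₀ ℕ)} (hS : 2 ≤ S.card) (h : ¬ Coll S) :
    ∃ v : Fin n → ℝ, 2 ≤ (face v S).card ∧ face v S ⊂ S := by
  classical
  have hne : S.Nonempty := Finset.card_pos.1 (by omega)
  obtain ⟨a, ha, hmax⟩ := exists_maxnorm' hne
  -- two non parallel differences from `a`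
  obtain ⟨β, hβ, γ, hγ, i₀, j₀, hij⟩ : ∃ β ∈ S, ∃ γ ∈ S, ∃ i j,
      ((β i : ℤ) - a i) * ((γ j : ℤ) - a j) ≠ ((β j : ℤ) - a j) * ((γ i : ℤ) - a i) := by
    by_contra hcon
    push Not at hcon
    apply h
    intro α hα β hβ γ hγ i j
    have h1 := hcon β hβ γ hγ i j
    have h2 := hcon β hβ α hα i j
    have h3 := hcon α hα γ hγ i j
    linear_combination h1 - h2 - h3
  have hβa : β ≠ a := by rintro rfl; simp at hij
  have hγa : γ ≠ a := by rintro rfl; simp at hij
  let w : (Fin n →₀ ℕ) → ℝ := fun δ => (ip a a : ℝ) - ip a δ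
  have hw : ∀ δ ∈ S, δ ≠ a → 0 < w δ := by
    intro δ hδ hne
    have := hmax δ hδ hne
    simp only [w, sub_pos]
    exact_mod_cast this
  have hw' : ∀ δ, ∑ i, (a i : ℝ) * ((δ i : ℝ) - a i) = - w δ := by
    intro δ
    simp only [w, ip]
    push_cast
    rw [neg_sub, ← Finset.sum_sub_distrib]
    exact Finset.sum_congr rfl fun i _ => by ring
  have hwβ := hw β hβ hβa
  have hwγ := hw γ hγ hγa
  let u : Fin n → ℝ := fun i => ((β i : ℝ) - a i) / w β - ((γ i : ℝ) - a i) / w γ
  have hu : 0 < ∑ i, u i * u i := by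
    obtain ⟨i, hi⟩ : ∃ i, u i ≠ 0 := by
      by_contra hcon
      push Not at hcon
      apply hij
      have e1 : ∀ i, ((β i : ℝ) - a i) = (w β / w γ) * ((γ i : ℝ) - a i) := by
        intro i
        have h1 := hcon i
        simp only [u] at h1
        field_simp
        field_simp at h1
        linarith
      have e2 : ((β i₀ : ℝ) - a i₀) * ((γ j₀ : ℝ) - a j₀) =
          ((β j₀ : ℝ) - a j₀) * ((γ i₀ : ℝ) - a i₀) := by
        rw [e1 i₀, e1 j₀]; ring
      exact_mod_cast e2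
    exact Finset.sum_pos' (fun i _ => mul_self_nonneg _) ⟨i, Finset.mem_univ i, mul_self_pos.2 hi⟩
  let U : (Fin n →₀ ℕ) → ℝ := fun δ => ∑ i, u i * ((δ i : ℝ) - a i)
  let R : (Fin n →₀ ℕ) → ℝ := fun δ => U δ / w δ
  have hR : R γ < R β := by
    have e1 : R β - R γ = ∑ i, u i * u i := by
      simp only [R, U]
      rw [Finset.sum_div, Finset.sum_div, ← Finset.sum_sub_distrib]
      refine Finset.sum_congr rfl fun i _ => ?_
      simp only [u]
      ring
    linarith
  have hne' : (S.erase a).Nonempty := ⟨β, Finset.mem_erase.2 ⟨hβa, hβ⟩⟩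
  obtain ⟨δ, hδ, hδmin⟩ := Finset.exists_min_image (S.erase a) R hne'
  obtain ⟨hδa, hδS⟩ := Finset.mem_erase.1 hδ
  let v : Fin n → ℝ := fun i => u i + R δ * a i
  have hv : ∀ ε : Fin n →₀ ℕ, dt v ε - dt v a = U ε - R δ * w ε := by
    intro ε
    rw [dt_sub]
    simp only [v, add_mul, Finset.sum_add_distrib, U]
    have : ∑ i, R δ * (a i : ℝ) * ((ε i : ℝ) - a i) = R δ * ∑ i, (a i : ℝ) * ((ε i : ℝ) - a i) := by
      rw [Finset.mul_sum]
      exact Finset.sum_congr rfl fun i _ => by ring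
    rw [this, hw']
    ring
  have hv' : ∀ ε ∈ S, ε ≠ a → dt v ε - dt v a = w ε * (R ε - R δ) := by
    intro ε hε hne
    rw [hv]
    have h1 := hw ε hε hne
    simp only [R]
    field_simp
  have hge : ∀ ε ∈ S, dt v a ≤ dt v ε := by
    intro ε hε
    by_cases hne : ε = a
    · rw [hne]
    · have h1 := hv' ε hε hne
      have h2 := hw ε hε hne
      have h3 := hδmin ε (Finset.mem_erase.2 ⟨hne, hε⟩)
      have h4 : 0 ≤ w ε * (R ε - R δ) := mul_nonneg h2.le (by linarith)
      linarith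
  have ha' : a ∈ face v S := mem_face.2 ⟨ha, hge⟩
  have hδ' : δ ∈ face v S := by
    refine mem_face.2 ⟨hδS, fun ε hε => ?_⟩
    have h1 := hv' δ hδS hδa
    rw [sub_self, mul_zero] at h1
    have h2 := hge ε hε
    linarith
  have hβ' : β ∉ face v S := by
    intro hmem
    have h1 := (mem_face.1 hmem).2 a ha
    have h2 := hv' β hβ hβa
    have h3 := hδmin γ (Finset.mem_erase.2 ⟨hγa, hγ⟩)
    have h4 : 0 < w β * (R β - R δ) := mul_pos hwβ (by linarith)
    linarith
  refine ⟨v, ?_, ?_⟩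
  · exact Finset.one_lt_card.2 ⟨a, ha', δ, hδ', Ne.symm hδa⟩
  · refine Finset.ssubset_iff_subset_ne.2 ⟨fun x hx => (mem_face.1 hx).1, fun he => hβ' ?_⟩
    rw [he]
    exact hβ

/-- an edge -/
theorem exists_edge {n : ℕ} {θ : Fin n → ℝ} {h : ℝ} {c : (Fin n →₀ ℕ) → ℂ}
    (S : Finset (Fin n →₀ ℕ)) (hS : 2 ≤ S.card) (hc : ∀ α ∈ S, c α ≠ 0) (hNV : NV θ h c S) :
    ∃ S' ⊆ S, 2 ≤ S'.card ∧ Coll S' ∧ NV θ h c S' := by
  induction S using Finset.strongInduction with
  | H S ih =>
    by_cases hcoll : Coll S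
    · exact ⟨S, Finset.Subset.refl _, hS, hcoll, hNV⟩
    · obtain ⟨v, hv2, hvS⟩ := exists_proper_face hS hcoll
      have hne : S.Nonempty := Finset.card_pos.1 (by omega)
      obtain ⟨S', h1, h2, h3, h4⟩ := ih (face v S) hvS hv2 (fun α hα => hc α (mem_face.1 hα).1)
        (hurwitz hne hc hNV v)
      exact ⟨S', h1.trans hvS.1, h2, h3, h4⟩

/-- primitive integer vectors -/
theorem exists_primitive {n : ℕ} (d : Fin n → ℤ) (hd : d ≠ 0) :
    ∃ (g : ℤ) (e b : Fin n → ℤ), g ≠ 0 ∧ (∀ i, d i = g * e i) ∧ ∑ i, b i * e i = 1 := by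
  obtain ⟨g, hg⟩ := (IsPrincipalIdealRing.principal (Ideal.span (Set.range d))).principal
  have hg' : Ideal.span (Set.range d) = Ideal.span {g} := hg
  have h1 : ∀ i, g ∣ d i := by
    intro i
    rw [← Ideal.mem_span_singleton, ← hg']
    exact Ideal.subset_span ⟨i, rfl⟩
  choose e he using h1
  have hg0 : g ≠ 0 := by
    rintro rfl
    apply hd
    funext i
    rw [he i, zero_mul]
    rfl
  have h2 : g ∈ Ideal.span (Set.range d) := by
    rw [hg']
    exact Ideal.mem_span_singleton_self g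
  obtain ⟨b, hb⟩ := (Ideal.mem_span_range_iff_exists_fun).1 h2
  refine ⟨g, e, b, hg0, he, ?_⟩
  have h3 : g * ∑ i, b i * e i = g * 1 := by
    rw [mul_one, Finset.mul_sum]
    conv_rhs => rw [← hb]
    exact Finset.sum_congr rfl fun i _ => by rw [he i]; ring
  exact mul_left_cancel₀ hg0 h3

/-- the integer multiples of a primitive vector -/
theorem parallel {n : ℕ} {e b : Fin n → ℤ} (hb : ∑ i, b i * e i = 1) {f : Fin n → ℤ}
    (hf : ∀ i j, f i * e j = f j * e i) : ∀ j, f j = (∑ i, b i * f i) * e j := by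
  intro j
  calc f j = f j * ∑ i, b i * e i := by rw [hb, mul_one]
    _ = ∑ i, b i * (f j * e i) := by rw [Finset.mul_sum]; exact Finset.sum_congr rfl fun i _ => by ring
    _ = ∑ i, b i * (f i * e j) := Finset.sum_congr rfl fun i _ => by rw [hf i j]
    _ = _ := by rw [Finset.sum_mul]; exact Finset.sum_congr rfl fun i _ => by ring

end Pool.Agent.TH671.US
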