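import Pool.Agent.TH671.US.B

set_option autoImplicit false

/-! The primitive direction of an edge is short. -/

namespace Pool.Agent.TH671.US

open Finset

theorem edge_short {n : ℕ} {θ : Fin n → ℝ} {h : ℝ} {c : (Fin n →₀ ℕ) → ℂ}
    {S : Finset (Fin n →₀ ℕ)} (hS : 2 ≤ S.card) (hc : ∀ α ∈ S, c α ≠ 0) (hcoll : Coll S)
    (hNV : NV θ h c S) (k : ℕ) (hk : Real.pi < (k + 1) * h) :
    ∃ e : Fin n → ℤ, e ≠ 0 ∧ ∑ i, |e i| ≤ k ∧
      ∃ α ∈ S, ∃ β ∈ S, ∃ g : ℤ, g ≠ 0 ∧ ∀ i, (β i : ℤ) - α i = g * e i := by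
  classical
  obtain ⟨α₁, hα₁, β₁, hβ₁, hne⟩ := Finset.one_lt_card.1 (show 1 < S.card by omega)
  have hd : (fun i => (β₁ i : ℤ) - α₁ i) ≠ 0 := by
    intro h0
    apply hne
    ext i
    have h1 : (β₁ i : ℤ) - α₁ i = 0 := congrFun h0 i
    omega
  obtain ⟨g, e, b, hg, he, hb⟩ := exists_primitive _ hd
  have hpar : ∀ γ ∈ S, ∀ j, ((γ j : ℤ) - α₁ j) = (∑ i, b i * ((γ i : ℤ) - α₁ i)) * e j := by
    intro γ hγ
    refine parallel hb (f := fun i => (γ i : ℤ) - α₁ i) fun i j => ?_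
    have h1 := hcoll α₁ hα₁ β₁ hβ₁ γ hγ i j
    have h2 : (β₁ i : ℤ) - α₁ i = g * e i := he i
    have h3 : (β₁ j : ℤ) - α₁ j = g * e j := he j
    rw [h2, h3] at h1
    have h4 : g * (((γ i : ℤ) - α₁ i) * e j) = g * (((γ j : ℤ) - α₁ j) * e i) := by
      linear_combination -h1
    exact mul_left_cancel₀ hg h4
  let s : (Fin n →₀ ℕ) → ℤ := fun γ => ∑ i, b i * ((γ i : ℤ) - α₁ i)
  have hSne : S.Nonempty := ⟨α₁, hα₁⟩
  obtain ⟨α, hα, hαmin⟩ := Finset.exists_min_image S s hSne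
  let T : (Fin n →₀ ℕ) → ℕ := fun γ => (s γ - s α).toNat
  have hT : ∀ γ ∈ S, (T γ : ℤ) = s γ - s α := fun γ hγ =>
    Int.toNat_of_nonneg (sub_nonneg.2 (hαmin γ hγ))
  have hdiff : ∀ γ ∈ S, ∀ j, (γ j : ℤ) = α j + T γ * e j := by
    intro γ hγ j
    have h1 := hpar γ hγ j
    have h2 := hpar α hα j
    rw [hT γ hγ]
    simp only [s]
    linear_combination h1 - h2
  have hTα : T α = 0 := by simp [T]
  have hTinj : ∀ γ ∈ S, ∀ δ ∈ S, T γ = T δ → γ = δ := by
    intro γ hγ δ hδ h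
    ext j
    have h1 := hdiff γ hγ j
    have h2 := hdiff δ hδ j
    rw [h] at h1
    omega
  have he0 : e ≠ 0 := by
    rintro rfl
    simp at hb
  refine ⟨e, he0, ?_, α₁, hα₁, β₁, hβ₁, g, hg, he⟩
  by_contra hcon
  push Not at hcon
  -- the polynomial
  let P : Polynomial ℂ := ∑ γ ∈ S, Polynomial.C (c γ) * Polynomial.X ^ (T γ)
  have hcoef : ∀ γ ∈ S, P.coeff (T γ) = c γ := by
    intro γ hγ
    simp only [P, Polynomial.finsetSum_coeff, Polynomial.coeff_C_mul, Polynomial.coeff_X_pow]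
    rw [Finset.sum_eq_single γ]
    · simp
    · intro δ hδ hne
      rw [if_neg, mul_zero]
      exact fun h => hne (hTinj δ hδ γ hγ h.symm)
    · intro h
      exact (h hγ).elim
  have h0 : P.coeff 0 = c α := by rw [← hTα]; exact hcoef α hα
  obtain ⟨β, hβ, hβα⟩ : ∃ β ∈ S, β ≠ α := by
    by_cases h1 : α = α₁
    · exact ⟨β₁, hβ₁, fun h => hne (h1 ▸ h.symm)⟩
    · exact ⟨α₁, hα₁, fun h => h1 h.symm⟩
  have hTβ : T β ≠ 0 := fun h => hβα (hTinj β hβ α hα (by rw [h, hTα]))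
  have hdeg : P.degree ≠ 0 := by
    intro hd0
    have h1 : P.coeff (T β) = 0 := by
      apply Polynomial.coeff_eq_zero_of_degree_lt
      rw [hd0]
      exact_mod_cast Nat.pos_of_ne_zero hTβ
    rw [hcoef β hβ] at h1
    exact hc β hβ h1
  obtain ⟨y₀, hy₀⟩ := IsAlgClosed.exists_root P hdeg
  have hy0 : y₀ ≠ 0 := by
    rintro rfl
    have h1 : P.eval 0 = 0 := hy₀
    rw [← Polynomial.coeff_zero_eq_eval_zero, h0] at h1
    exact hc α hα h1
  -- the point
  let A : ℝ := ∑ i, |(e i : ℝ)|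
  have hA : (k : ℝ) + 1 ≤ A := by
    have h1 : ((k : ℤ) + 1) ≤ ∑ i, |e i| := by omega
    have h2 : (((k : ℤ) + 1 : ℤ) : ℝ) ≤ ((∑ i, |e i| : ℤ) : ℝ) := by exact_mod_cast h1
    simpa [A] using h2
  have hApos : 0 < A := lt_of_lt_of_le (by positivity) hA
  have hhpos : 0 < h := by
    by_contra hneg
    push Not at hneg
    have : ((k : ℝ) + 1) * h ≤ 0 := mul_nonpos_of_nonneg_of_nonpos (by positivity) hneg
    linarith [Real.pi_pos]
  have hAh : Real.pi < A * h := hk.trans_le (mul_le_mul_of_nonneg_right hA hhpos.le)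
  let B : ℝ := ∑ i, (e i : ℝ) * e i
  have hB : 0 < B := by
    obtain ⟨i, hi⟩ := Function.ne_iff.1 he0
    refine Finset.sum_pos' (fun i _ => mul_self_nonneg _) ⟨i, Finset.mem_univ i, ?_⟩
    have : (e i : ℝ) ≠ 0 := by exact_mod_cast hi
    exact mul_self_pos.2 this
  let Θ : ℝ := ∑ i, θ i * e i
  let q : ℝ := (y₀.arg - Θ) / (2 * Real.pi)
  let m : ℤ := round q
  have hqm : |q - m| ≤ 1 / 2 := abs_sub_round q
  let τ : ℝ := 2 * Real.pi * (q - m) / A
  have hτ : |τ| < h := by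
    simp only [τ]
    rw [abs_div, abs_of_pos hApos, div_lt_iff₀ hApos, abs_mul, abs_of_pos (by positivity)]
    have : 2 * Real.pi * |q - m| ≤ Real.pi := by nlinarith [Real.pi_pos]
    linarith [mul_comm A h]
  have hτA : Θ + τ * A = y₀.arg - 2 * Real.pi * m := by
    have h1 : τ * A = 2 * Real.pi * (q - m) := by
      simp only [τ]; field_simp
    have h2 : 2 * Real.pi * q = y₀.arg - Θ := by
      simp only [q]
      have := Real.pi_pos
      field_simp
    rw [h1]
    linarith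
  let ρ : ℝ := Real.log ‖y₀‖ / B
  let z : Fin n → ℂ := fun i => ((ρ * e i : ℝ) : ℂ) + ((θ i + τ * (Int.sign (e i) : ℝ) : ℝ) : ℂ) * Complex.I
  have hsec : ∀ i, Complex.exp (z i) ∈ sector (θ i) h := by
    intro i
    refine ⟨Real.exp (ρ * e i), τ * (Int.sign (e i) : ℝ), Real.exp_pos _, ?_, ?_⟩
    · rw [abs_mul]
      have : |((Int.sign (e i) : ℤ) : ℝ)| ≤ 1 := by
        rcases lt_trichotomy (e i) 0 with h1 | h1 | h1
        · simp [Int.sign_eq_neg_one_of_neg h1]
        · simp [h1]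
        · simp [Int.sign_eq_one_of_pos h1]
      calc |τ| * |((Int.sign (e i) : ℤ) : ℝ)| ≤ |τ| * 1 :=
            mul_le_mul_of_nonneg_left this (abs_nonneg _)
        _ < h := by rw [mul_one]; exact hτ
    · simp only [z]
      rw [Complex.exp_add, Complex.ofReal_exp]
  have hsum : ∑ i, (e i : ℂ) * z i = ((Real.log ‖y₀‖ : ℝ) : ℂ) +
      ((y₀.arg - 2 * Real.pi * m : ℝ) : ℂ) * Complex.I := by
    have h1 : ∑ i, (e i : ℂ) * z i = ((ρ * B : ℝ) : ℂ) + ((Θ + τ * A : ℝ) : ℂ) * Complex.I := by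
      have h2 : ∀ i, (e i : ℂ) * z i = ((ρ * (e i * e i) : ℝ) : ℂ) +
          ((θ i * e i + τ * |(e i : ℝ)| : ℝ) : ℂ) * Complex.I := by
        intro i
        have h3 : |(e i : ℝ)| = e i * (Int.sign (e i) : ℝ) := by
          rcases lt_trichotomy (e i) 0 with h1 | h1 | h1
          · have h2 : (e i : ℝ) < 0 := by exact_mod_cast h1
            rw [Int.sign_eq_neg_one_of_neg h1, abs_of_neg h2]
            push_cast
            ring
          · simp [h1]
          · have h2 : (0 : ℝ) < e i := by exact_mod_cast h1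
            rw [Int.sign_eq_one_of_pos h1, abs_of_pos h2]
            push_cast
            ring
        rw [h3]
        simp only [z]
        push_cast
        ring
      rw [Finset.sum_congr rfl fun i _ => h2 i, Finset.sum_add_distrib, ← Finset.sum_mul]
      congr 1
      · rw [← Complex.ofReal_sum]
        congr 1
        simp only [B]
        rw [Finset.mul_sum]
      · congr 1
        rw [← Complex.ofReal_sum]
        congr 1
        simp only [Θ, A]
        rw [Finset.mul_sum, ← Finset.sum_add_distrib]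
    rw [h1, hτA]
    congr 2
    simp only [ρ]
    field_simp
  have hexp : Complex.exp (∑ i, (e i : ℂ) * z i) = y₀ := by
    rw [hsum, Complex.exp_add]
    have h1 : Complex.exp (((y₀.arg - 2 * Real.pi * m : ℝ) : ℂ) * Complex.I) =
        Complex.exp (y₀.arg * Complex.I) := by
      rw [Complex.exp_eq_exp_iff_exists_int]
      refine ⟨-m, ?_⟩
      push_cast
      ring
    rw [h1, ← Complex.ofReal_exp, Real.exp_log (norm_pos_iff.2 hy0)]
    exact Complex.norm_mul_exp_arg_mul_I y₀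
  have hprod : ∀ γ ∈ S, ∏ i, Complex.exp (z i) ^ (γ i) =
      Complex.exp (∑ i, (α i : ℂ) * z i) * y₀ ^ (T γ) := by
    intro γ hγ
    rw [← hexp, ← Complex.exp_nat_mul, ← Complex.exp_add]
    have h1 : ∏ i, Complex.exp (z i) ^ (γ i) = Complex.exp (∑ i, (γ i : ℂ) * z i) := by
      rw [Complex.exp_sum]
      exact Finset.prod_congr rfl fun i _ => by rw [← Complex.exp_nat_mul]
    rw [h1]
    congr 1
    rw [Finset.mul_sum, ← Finset.sum_add_distrib]
    refine Finset.sum_congr rfl fun i _ => ?_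
    have h2 := hdiff γ hγ i
    have h3 : (γ i : ℂ) = α i + T γ * e i := by exact_mod_cast h2
    rw [h3]
    ring
  refine hNV (fun i => Complex.exp (z i)) hsec ?_
  have h1 : ev c S (fun i => Complex.exp (z i)) = Complex.exp (∑ i, (α i : ℂ) * z i) * P.eval y₀ := by
    simp only [ev, P, Polynomial.eval_finsetSum, Polynomial.eval_mul, Polynomial.eval_C,
      Polynomial.eval_pow, Polynomial.eval_X]
    rw [Finset.mul_sum]
    refine Finset.sum_congr rfl fun γ hγ => ?_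
    rw [hprod γ hγ]
    ring
  rw [h1]
  have h2 : P.eval y₀ = 0 := hy₀
  rw [h2, mul_zero]

end Pool.Agent.TH671.US
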