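import Pool.Agent.TH671.US.C

set_option autoImplicit false

/-! The substitution `x_i = ∏_j t_j ^ (i ^ j mod p)` is injective enough. -/

namespace Pool.Agent.TH671.US

open Finset MvPolynomial

/-- the weights -/
def wgt {n k : ℕ} (p : ℕ) (j : Fin k) (i : Fin n) : ℕ := (i : ℕ) ^ (j : ℕ) % p

theorem kernel {n k p : ℕ} (hp : p.Prime) (hn : n ≤ p) (e : Fin n → ℤ)
    (hsup : (Finset.univ.filter (fun i => e i ≠ 0)).card ≤ k)
    (hker : ∀ j : Fin k, ∑ i, (wgt p j i : ℤ) * e i = 0) : e = 0 := by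
  classical
  by_contra hne
  have : Fact p.Prime := ⟨hp⟩
  obtain ⟨g, e', b, hg, he, hb⟩ := exists_primitive e hne
  have hker' : ∀ j : Fin k, ∑ i, (wgt p j i : ℤ) * e' i = 0 := by
    intro j
    have h1 := hker j
    have h2 : g * ∑ i, (wgt p j i : ℤ) * e' i = 0 := by
      rw [← h1, Finset.mul_sum]
      exact Finset.sum_congr rfl fun i _ => by rw [he i]; ring
    exact (mul_eq_zero.1 h2).resolve_left hg
  set s := Finset.univ.filter (fun i => e' i ≠ 0) with hs
  have hsk : s.card ≤ k := by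
    refine le_trans (Finset.card_le_card ?_) hsup
    intro i hi
    rw [hs, Finset.mem_filter] at hi
    rw [Finset.mem_filter, he i]
    exact ⟨Finset.mem_univ i, mul_ne_zero hg hi.2⟩
  let c := s.equivFin.symm
  let v : Fin s.card → ZMod p := fun l => (((c l : Fin n) : ℕ) : ZMod p)
  have hv : Function.Injective v := by
    intro l l' h
    have h1 : ((c l : Fin n) : ℕ) = ((c l' : Fin n) : ℕ) := by
      have h2 := (ZMod.natCast_eq_natCast_iff _ _ _).1 h
      exact Nat.ModEq.eq_of_lt_of_lt h2 ((c l : Fin n).2.trans_le hn) ((c l' : Fin n).2.trans_le hn)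
    exact c.injective (Subtype.ext (Fin.ext h1))
  let x : Fin s.card → ZMod p := fun l => ((e' (c l) : ℤ) : ZMod p)
  have hx : x = 0 := by
    apply Matrix.eq_zero_of_vecMul_eq_zero (Matrix.det_vandermonde_ne_zero_iff.2 hv)
    funext j
    have h1 := hker' (Fin.castLE hsk j)
    have h2 : ∑ i ∈ s, (wgt p (Fin.castLE hsk j) i : ℤ) * e' i = 0 := by
      rw [← h1]
      refine Finset.sum_subset (Finset.subset_univ _) fun i _ hi => ?_
      rw [hs, Finset.mem_filter] at hi
      have : e' i = 0 := by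
        by_contra h3
        exact hi ⟨Finset.mem_univ i, h3⟩
      rw [this, mul_zero]
    have h3 : ((∑ i ∈ s, (wgt p (Fin.castLE hsk j) i : ℤ) * e' i : ℤ) : ZMod p) = 0 := by
      rw [h2, Int.cast_zero]
    rw [Int.cast_sum, ← Finset.sum_coe_sort s, ← Equiv.sum_comp c] at h3
    simp only [Matrix.vecMul, dotProduct, Matrix.vandermonde_apply, Pi.zero_apply]
    rw [← h3]
    refine Finset.sum_congr rfl fun l _ => ?_
    simp only [x, v, wgt, Fin.val_castLE]
    push_cast
    ring
  have hdvd : ∀ i, (p : ℤ) ∣ e' i := by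
    intro i
    by_cases hi : i ∈ s
    · have h1 := congrFun hx (c.symm ⟨i, hi⟩)
      simp only [x, Equiv.apply_symm_apply, Pi.zero_apply] at h1
      exact (ZMod.intCast_zmod_eq_zero_iff_dvd _ _).1 h1
    · have : e' i = 0 := by
        by_contra h3
        exact hi (by rw [hs, Finset.mem_filter]; exact ⟨Finset.mem_univ i, h3⟩)
      rw [this]
      exact dvd_zero _
  have h1 : (p : ℤ) ∣ 1 := by
    rw [← hb]
    exact Finset.dvd_sum fun i _ => Dvd.dvd.mul_left (hdvd i) _
  have h2 := Int.le_of_dvd one_pos h1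
  have := hp.two_le
  omega

theorem card_support_le {n k : ℕ} {e : Fin n → ℤ} (h : ∑ i, |e i| ≤ k) :
    (Finset.univ.filter (fun i => e i ≠ 0)).card ≤ k := by
  have h1 : (((Finset.univ.filter (fun i => e i ≠ 0)).card : ℕ) : ℤ) ≤ ∑ i, |e i| := by
    rw [Finset.card_eq_sum_ones]
    push_cast
    rw [Finset.sum_filter]
    refine Finset.sum_le_sum fun i _ => ?_
    split_ifs with hi
    · exact Int.one_le_abs hi
    · exact abs_nonneg _
  exact_mod_cast h1.trans h

/-- the exponent vector of the image of a monomial -/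
noncomputable def img {n : ℕ} (k p : ℕ) (α : Fin n →₀ ℕ) : Fin k →₀ ℕ :=
  Finsupp.equivFunOnFinite.symm (fun j => ∑ i, wgt p j i * α i)

theorem img_apply {n k p : ℕ} (α : Fin n →₀ ℕ) (j : Fin k) :
    img k p α j = ∑ i, wgt p j i * α i := rfl

theorem prod_img {n k p : ℕ} (α : Fin n →₀ ℕ) :
    ∏ i, (∏ j : Fin k, (X j : MvPolynomial (Fin k) ℂ) ^ wgt p j i) ^ (α i) =
      monomial (img k p α) 1 := by
  rw [MvPolynomial.monomial_eq, C_1, one_mul, Finsupp.prod_fintype _ _ (fun _ => pow_zero _)]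
  simp only [← Finset.prod_pow]
  rw [Finset.prod_comm]
  refine Finset.prod_congr rfl fun j _ => ?_
  rw [img_apply, ← Finset.prod_pow_eq_pow_sum]
  exact Finset.prod_congr rfl fun i _ => by rw [pow_mul]

theorem eval_eq_ev {n : ℕ} (f : MvPolynomial (Fin n) ℂ) (x : Fin n → ℂ) :
    eval x f = ev (fun α => coeff α f) f.support x := by
  rw [MvPolynomial.eval_eq']
  rfl

/-- **The substitution preserves the non-vanishing of polynomials without zeros on an unknown
product of sectors.** -/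
theorem subst_ne_zero {n k p : ℕ} (hp : p.Prime) (hn : n ≤ p) {θ : Fin n → ℝ} {h : ℝ}
    (hh : 0 < h) (hk0 : 0 < k) (hk : Real.pi < (k + 1) * h) (f : MvPolynomial (Fin n) ℂ)
    (s : Fin n → ℂ)
    (hf : ∀ x : Fin n → ℂ, (∀ i, x i ∈ sector (θ i) h) → eval (fun i => x i + s i) f ≠ 0) :
    aeval (fun i => ∏ j : Fin k, (X j : MvPolynomial (Fin k) ℂ) ^ wgt p j i) f ≠ 0 := by
  classical
  set S := f.support with hSdef
  let c : (Fin n →₀ ℕ) → ℂ := fun α => coeff α f
  have hNV : ∀ x : Fin n → ℂ, (∀ i, x i ∈ sector (θ i) h) → ev c S (fun i => x i + s i) ≠ 0 := by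
    intro x hx
    have h1 := hf x hx
    rwa [eval_eq_ev] at h1
  have hc : ∀ α ∈ S, c α ≠ 0 := fun α hα => mem_support_iff.1 hα
  have hne : S.Nonempty := by
    rw [Finset.nonempty_iff_ne_empty]
    intro h0
    have h1 := hf (fun i => Complex.exp ((θ i : ℂ) * Complex.I)) (fun i =>
      ⟨1, 0, one_pos, by simpa using hh, by simp⟩)
    have hf0 : f = 0 := MvPolynomial.support_eq_empty.1 (by rw [← hSdef]; exact h0)
    rw [hf0] at h1
    exact h1 (map_zero _)
  let Φ : (Fin n →₀ ℕ) → (Fin k → ℤ) := fun α j => (img k p α j : ℤ)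
  obtain ⟨τ, hτ, hmax⟩ := exists_maxnorm (hne.image Φ)
  obtain ⟨α₀, hα₀, rfl⟩ := Finset.mem_image.1 hτ
  let v : Fin n → ℝ := fun i => - ∑ j : Fin k, (img k p α₀ j : ℝ) * wgt p j i
  have hv : ∀ α : Fin n →₀ ℕ, dt v α = - ((∑ j, Φ α₀ j * Φ α j : ℤ) : ℝ) := by
    intro α
    unfold dt
    simp only [v, Φ, neg_mul, Finset.sum_neg_distrib, Finset.sum_mul]
    rw [Finset.sum_comm]
    push_cast
    congr 1
    refine Finset.sum_congr rfl fun j _ => ?_
    rw [img_apply (α := α)]
    push_cast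
    rw [Finset.mul_sum]
    exact Finset.sum_congr rfl fun i _ => by ring
  have hface : ∀ α ∈ face v S, img k p α = img k p α₀ := by
    intro α hα
    by_contra hne'
    have h1 := (mem_face.1 hα).2 α₀ hα₀
    rw [hv, hv] at h1
    have h2 : Φ α ≠ Φ α₀ := by
      intro h3
      apply hne'
      ext j
      have h4 : ((img k p α j : ℕ) : ℤ) = (img k p α₀ j : ℕ) := congrFun h3 j
      exact_mod_cast h4
    have h3 := hmax (Φ α) (Finset.mem_image_of_mem Φ (mem_face.1 hα).1) h2
    have h4 : ((∑ j, Φ α₀ j * Φ α j : ℤ) : ℝ) < ((∑ j, Φ α₀ j * Φ α₀ j : ℤ) : ℝ) := by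
      exact_mod_cast h3
    linarith
  have hα₀' : α₀ ∈ face v S := by
    refine mem_face.2 ⟨hα₀, fun β hβ => ?_⟩
    rw [hv, hv]
    apply neg_le_neg
    by_cases h1 : Φ β = Φ α₀
    · rw [h1]
    · exact_mod_cast (hmax (Φ β) (Finset.mem_image_of_mem Φ hβ) h1).le
  have hsum0 : ∀ α : Fin n →₀ ℕ, img k p α ⟨0, hk0⟩ = ∑ i, α i := by
    intro α
    rw [img_apply]
    refine Finset.sum_congr rfl fun i _ => ?_
    have : wgt p (⟨0, hk0⟩ : Fin k) i = 1 := by
      simp only [wgt, pow_zero]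
      exact Nat.mod_eq_of_lt hp.one_lt
    rw [this, one_mul]
  have hsingle : ∀ α ∈ face v S, α = α₀ := by
    by_contra hcon
    push Not at hcon
    obtain ⟨α, hα, hαne⟩ := hcon
    have h2 : 2 ≤ (face v S).card := Finset.one_lt_card.2 ⟨α, hα, α₀, hα₀', hαne⟩
    have hpos : 0 < ∑ i, α₀ i := by
      rw [Nat.pos_iff_ne_zero]
      intro h0
      have h3 : ∑ i, α i = 0 := by
        rw [← hsum0, hface α hα, hsum0, h0]
      apply hαne
      ext i
      have h4 := (Finset.sum_eq_zero_iff.1 h3) i (Finset.mem_univ i)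
      have h5 := (Finset.sum_eq_zero_iff.1 h0) i (Finset.mem_univ i)
      rw [h4, h5]
    have hvneg : ∀ i, v i < 0 := by
      intro i
      simp only [v]
      rw [neg_lt_zero]
      have h3 : (0 : ℝ) < ((∑ j : Fin k, img k p α₀ j * wgt p j i : ℕ) : ℝ) := by
        have h4 : 0 < ∑ j : Fin k, img k p α₀ j * wgt p j i := by
          refine Finset.sum_pos' (fun _ _ => Nat.zero_le _) ⟨⟨0, hk0⟩, Finset.mem_univ _, ?_⟩
          rw [hsum0]
          have : wgt p (⟨0, hk0⟩ : Fin k) i = 1 := by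
            simp only [wgt, pow_zero]
            exact Nat.mod_eq_of_lt hp.one_lt
          rw [this, mul_one]
          exact hpos
        exact_mod_cast h4
      push_cast at h3
      exact h3
    have hNV' := hurwitz_shift hne hc s hNV v (fun i => Or.inl (hvneg i))
    have hc' : ∀ α ∈ face v S, c α ≠ 0 := fun α hα => hc α (mem_face.1 hα).1
    obtain ⟨S', hS', hS'2, hcoll, hNV''⟩ := exists_edge _ h2 hc' hNV'
    obtain ⟨e, he0, hek, β, hβ, γ, hγ, g, hg, hge⟩ :=
      edge_short hS'2 (fun α hα => hc' α (hS' hα)) hcoll hNV'' k hk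
    apply he0
    refine kernel hp hn e (card_support_le hek) fun j => ?_
    have h3 : img k p β = img k p γ := (hface β (hS' hβ)).trans (hface γ (hS' hγ)).symm
    have h4 : (∑ i, wgt p j i * β i : ℕ) = ∑ i, wgt p j i * γ i := by
      rw [← img_apply, ← img_apply, h3]
    have h5 : g * ∑ i, (wgt p j i : ℤ) * e i = 0 := by
      have h6 : ((∑ i, wgt p j i * β i : ℕ) : ℤ) = ((∑ i, wgt p j i * γ i : ℕ) : ℤ) := by rw [h4]
      push_cast at h6
      rw [Finset.mul_sum]
      have h7 : ∑ i, g * ((wgt p j i : ℤ) * e i) = ∑ i, ((wgt p j i : ℤ) * γ i - (wgt p j i : ℤ) * β i) :=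
        Finset.sum_congr rfl fun i _ => by
          have := hge i
          linear_combination (-(wgt p j i : ℤ)) * this
      rw [h7, Finset.sum_sub_distrib, h6, sub_self]
    exact (mul_eq_zero.1 h5).resolve_left hg
  -- the coefficient
  intro h0
  have hcoef : coeff (img k p α₀)
      (aeval (fun i => ∏ j : Fin k, (X j : MvPolynomial (Fin k) ℂ) ^ wgt p j i) f) = c α₀ := by
    rw [MvPolynomial.aeval_def, MvPolynomial.eval₂_eq', coeff_sum]
    rw [Finset.sum_eq_single α₀]
    · rw [prod_img, MvPolynomial.algebraMap_eq, coeff_C_mul, coeff_monomial, if_pos rfl, mul_one]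
    · intro β hβ hβne
      rw [prod_img, MvPolynomial.algebraMap_eq, coeff_C_mul, coeff_monomial, if_neg, mul_zero]
      intro h1
      apply hβne
      apply hsingle β
      refine mem_face.2 ⟨hβ, fun γ hγ => ?_⟩
      have h2 : dt v β = dt v α₀ := by
        rw [hv, hv]
        have : Φ β = Φ α₀ := by
          funext j
          simp only [Φ]
          rw [h1]
        rw [this]
      rw [h2]
      exact (mem_face.1 hα₀').2 γ hγ
    · intro h1
      exact (h1 hα₀).elim
  rw [h0, coeff_zero] at hcoef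
  exact hc α₀ hα₀ hcoef.symm

end Pool.Agent.TH671.US
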