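import Pool.Agent.TH671.US.D

set_option autoImplicit false

/-! The generator with exceptional variables, degrees, grids; determinants. -/

namespace Pool.Agent.TH671.US

open Finset MvPolynomial

/-- the parameters: `t_j`, `y_l`, `z_l` -/
abbrev Par (k r : ℕ) := Fin k ⊕ (Fin r ⊕ Fin r)

/-- the coordinate `i` of the point with parameters `u` -/
def pt {n k r : ℕ} (p : ℕ) (u : Par k r → ℤ) (i : Fin n) : ℤ :=
  ∏ j : Fin k, u (Sum.inl j) ^ wgt p j i +
    ∑ l : Fin r, u (Sum.inr (Sum.inl l)) *
      ∏ m ∈ Finset.univ.erase i, (u (Sum.inr (Sum.inr l)) - ((m : ℕ) : ℤ))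

/-- the generator -/
noncomputable def gen {n k r : ℕ} (p : ℕ) (i : Fin n) : MvPolynomial (Par k r) ℂ :=
  ∏ j : Fin k, X (Sum.inl j) ^ wgt p j i +
    ∑ l : Fin r, X (Sum.inr (Sum.inl l)) *
      ∏ m ∈ Finset.univ.erase i, (X (Sum.inr (Sum.inr l)) - C ((m : ℕ) : ℂ))

theorem eval_gen {n k r p : ℕ} (u : Par k r → ℤ) (i : Fin n) :
    eval (fun a => (u a : ℂ)) (gen p i) = (pt p u i : ℂ) := by
  simp only [gen, pt, map_add, map_prod, map_pow, eval_X, map_sum, map_mul, map_sub, eval_C]
  push_cast
  rfl

theorem degreeOf_X_pow_le' {σ : Type*} [DecidableEq σ] (a b : σ) (w : ℕ) :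
    degreeOf a ((X b : MvPolynomial σ ℂ) ^ w) ≤ if a = b then w else 0 := by
  refine (degreeOf_pow_le _ _ _).trans ?_
  rw [degreeOf_X]
  split_ifs <;> simp

theorem degreeOf_gen {n k r p : ℕ} (hp : 2 ≤ p) (hn : n ≤ p) (a : Par k r) (i : Fin n) :
    degreeOf a (gen p i : MvPolynomial (Par k r) ℂ) ≤ p - 1 := by
  classical
  unfold gen
  refine (degreeOf_add_le _ _ _).trans (max_le ?_ ?_)
  · refine (degreeOf_prod_le _ _ _).trans ?_
    calc ∑ j : Fin k, degreeOf a ((X (Sum.inl j) : MvPolynomial (Par k r) ℂ) ^ wgt p j i)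
        ≤ ∑ j : Fin k, if a = Sum.inl j then wgt p j i else 0 :=
          Finset.sum_le_sum fun j _ => degreeOf_X_pow_le' a _ _
      _ ≤ p - 1 := by
          rcases a with j₀ | a
          · rw [Finset.sum_eq_single j₀]
            · rw [if_pos rfl]
              have := Nat.mod_lt ((i : ℕ) ^ (j₀ : ℕ)) (show 0 < p by omega)
              unfold wgt
              omega
            · intro j _ hj
              rw [if_neg]
              intro h
              exact hj (Sum.inl_injective h).symm
            · intro h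
              exact (h (Finset.mem_univ _)).elim
          · rw [Finset.sum_eq_zero]
            · exact Nat.zero_le _
            · intro j _
              rw [if_neg (by simp)]
  · refine (degreeOf_sum_le _ _ _).trans ?_
    refine Finset.sup_le fun l _ => ?_
    refine (degreeOf_mul_le _ _ _).trans ?_
    have h1 : degreeOf a (X (Sum.inr (Sum.inl l)) : MvPolynomial (Par k r) ℂ) ≤
        if a = Sum.inr (Sum.inl l) then 1 else 0 := by
      rw [degreeOf_X]
    have h2 : degreeOf a (∏ m ∈ Finset.univ.erase i,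
        ((X (Sum.inr (Sum.inr l)) : MvPolynomial (Par k r) ℂ) - C ((m : ℕ) : ℂ))) ≤
        if a = Sum.inr (Sum.inr l) then n - 1 else 0 := by
      refine (degreeOf_prod_le _ _ _).trans ?_
      have h3 : ∀ m ∈ Finset.univ.erase i, degreeOf a
          ((X (Sum.inr (Sum.inr l)) : MvPolynomial (Par k r) ℂ) - C (((m : Fin n) : ℕ) : ℂ)) ≤
          if a = Sum.inr (Sum.inr l) then 1 else 0 := by
        intro m _
        rw [sub_eq_add_neg, ← C_neg]
        refine (degreeOf_add_le _ _ _).trans ?_
        rw [degreeOf_C, degreeOf_X, Nat.max_zero]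
      refine (Finset.sum_le_sum h3).trans ?_
      rw [Finset.sum_const, Finset.card_erase_of_mem (Finset.mem_univ i), Finset.card_univ,
        Fintype.card_fin]
      split_ifs <;> simp
    refine (Nat.add_le_add h1 h2).trans ?_
    have hi : 0 < n := i.pos
    rcases a with a | a | a
    · simp
    · simp only [reduceCtorEq, if_false, Sum.inr.injEq, add_zero]
      split_ifs <;> omega
    · simp only [reduceCtorEq, if_false, Sum.inr.injEq, zero_add]
      split_ifs <;> omega

theorem degreeOf_aeval_gen {n k r p D : ℕ} (hp : 2 ≤ p) (hn : n ≤ p) (f : MvPolynomial (Fin n) ℂ)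
    (hf : f.totalDegree ≤ D) (a : Par k r) :
    degreeOf a (aeval (gen p : Fin n → MvPolynomial (Par k r) ℂ) f) ≤ (p - 1) * D := by
  rw [MvPolynomial.aeval_def, MvPolynomial.eval₂_eq']
  refine (degreeOf_sum_le _ _ _).trans ?_
  refine Finset.sup_le fun α hα => ?_
  rw [MvPolynomial.algebraMap_eq]
  refine (degreeOf_C_mul_le _ _ _).trans ?_
  refine (degreeOf_prod_le _ _ _).trans ?_
  have h1 : ∑ i, α i ≤ D := by
    have := le_totalDegree hα
    rw [Finsupp.sum_fintype _ _ (fun _ => rfl)] at this
    exact this.trans hf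
  calc ∑ i, degreeOf a ((gen p i : MvPolynomial (Par k r) ℂ) ^ α i)
      ≤ ∑ i, (p - 1) * α i := Finset.sum_le_sum fun i _ => by
        refine (degreeOf_pow_le _ _ _).trans ?_
        rw [mul_comm]
        exact Nat.mul_le_mul_right _ (degreeOf_gen hp hn a i)
    _ = (p - 1) * ∑ i, α i := by rw [Finset.mul_sum]
    _ ≤ (p - 1) * D := Nat.mul_le_mul_left _ h1

/-- a nonzero value at an explicit point -/
theorem exists_point {n k r p D : ℕ} (hp : 2 ≤ p) (hn : n ≤ p) (f : MvPolynomial (Fin n) ℂ)
    (hf : f.totalDegree ≤ D)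
    (hne : aeval (gen p : Fin n → MvPolynomial (Par k r) ℂ) f ≠ 0) :
    ∃ u : Par k r → ℕ, (∀ a, u a ≤ (p - 1) * D) ∧
      eval (fun i => ((pt p (fun a => (u a : ℤ)) i : ℤ) : ℂ)) f ≠ 0 := by
  classical
  by_contra hcon
  push Not at hcon
  apply hne
  refine MvPolynomial.eq_zero_of_eval_zero_at_prod_finset _
    (fun _ => (Finset.range ((p - 1) * D + 1)).image (fun m : ℕ => (m : ℂ))) ?_ ?_
  · intro a
    rw [Finset.card_image_of_injective _ Nat.cast_injective, Finset.card_range]
    exact Nat.lt_succ_of_le (degreeOf_aeval_gen hp hn f hf a)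
  · intro x hx
    have h1 : ∀ a, ∃ m : ℕ, m ≤ (p - 1) * D ∧ (m : ℂ) = x a := by
      intro a
      obtain ⟨m, hm, hm'⟩ := Finset.mem_image.1 (hx a)
      exact ⟨m, Nat.lt_succ_iff.1 (Finset.mem_range.1 hm), hm'⟩
    choose u hu hux using h1
    have h2 := hcon u hu
    have h3 : x = fun a => (((u a : ℕ) : ℤ) : ℂ) := by
      funext a
      rw [← hux a]
      push_cast
      rfl
    rw [← h2, h3]
    have h4 : eval (fun a => (((u a : ℕ) : ℤ) : ℂ))
        (aeval (gen p : Fin n → MvPolynomial (Par k r) ℂ) f) =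
        eval (fun i => eval (fun a => (((u a : ℕ) : ℤ) : ℂ)) (gen p i)) f := by
      rw [MvPolynomial.aeval_def, MvPolynomial.eval₂_eq', MvPolynomial.eval_eq' _ f, map_sum]
      refine Finset.sum_congr rfl fun α _ => ?_
      rw [map_mul, MvPolynomial.algebraMap_eq, eval_C, map_prod]
      simp only [map_pow]
    rw [h4]
    congr 1
    congr 1
    funext i
    exact eval_gen _ i

/-- the generator hits the polynomials which have no zeros on an unknown product of sectors after
the substitution of constants for at most `r` unknown variables -/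
theorem gen_ne_zero {n k r p : ℕ} (hp : p.Prime) (hn : n ≤ p) {θ : Fin n → ℝ} {h : ℝ}
    (hh : 0 < h) (hk0 : 0 < k) (hk : Real.pi < (k + 1) * h) (E : Finset (Fin n))
    (hE : E.card ≤ r) (a : Fin n → ℂ) (f : MvPolynomial (Fin n) ℂ)
    (hf : ∀ x : Fin n → ℂ, (∀ i ∈ E, x i = a i) → (∀ i ∉ E, x i - a i ∈ sector (θ i) h) →
      eval x f ≠ 0) :
    aeval (gen p : Fin n → MvPolynomial (Par k r) ℂ) f ≠ 0 := by
  classical
  intro h0
  let fa : MvPolynomial (Fin n) ℂ := aeval (fun i => if i ∈ E then C (a i) else X i) f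
  have hfa : ∀ x : Fin n → ℂ, (∀ i, x i ∈ sector (θ i) h) →
      eval (fun i => x i + a i) fa ≠ 0 := by
    intro x hx
    have h1 := hf (fun i => if i ∈ E then a i else x i + a i) (fun i hi => by simp [hi])
      (fun i hi => by simpa [hi] using hx i)
    have h2 : eval (fun i => x i + a i) fa =
        eval (fun i => if i ∈ E then a i else x i + a i) f := by
      simp only [fa]
      rw [MvPolynomial.aeval_def, MvPolynomial.eval₂_eq', MvPolynomial.eval_eq' _ f, map_sum]
      refine Finset.sum_congr rfl fun α _ => ?_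
      rw [map_mul, MvPolynomial.algebraMap_eq, eval_C, map_prod]
      congr 1
      refine Finset.prod_congr rfl fun i _ => ?_
      rw [map_pow]
      congr 1
      split_ifs <;> simp
    rwa [h2]
  have hmain := subst_ne_zero (k := k) hp hn hh hk0 hk fa a hfa
  apply hmain
  -- the specialization
  let T : Fin n → MvPolynomial (Fin k) ℂ := fun i => ∏ j : Fin k, X j ^ wgt p j i
  let κ : Fin n → ℂ := fun i => ∏ m ∈ Finset.univ.erase i, (((i : ℕ) : ℂ) - ((m : ℕ) : ℂ))
  have hκ : ∀ i, κ i ≠ 0 := by
    intro i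
    refine Finset.prod_ne_zero_iff.2 fun m hm => ?_
    rw [sub_ne_zero]
    intro h1
    have h2 : (i : ℕ) = (m : ℕ) := by exact_mod_cast h1
    exact (Finset.mem_erase.1 hm).1 (Fin.ext h2.symm)
  let inv : Fin r → Option {i // i ∈ E} := fun l =>
    if h : l.val < E.card then some (E.equivFin.symm ⟨l.val, h⟩) else none
  let Y : Fin r → MvPolynomial (Fin k) ℂ := fun l =>
    (inv l).elim 0 (fun i => C (κ i)⁻¹ * (C (a i) - T i))
  let Z : Fin r → MvPolynomial (Fin k) ℂ := fun l =>
    (inv l).elim 0 (fun i => C ((((i : Fin n) : ℕ) : ℂ)))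
  let ψ : MvPolynomial (Par k r) ℂ →ₐ[ℂ] MvPolynomial (Fin k) ℂ :=
    aeval (Sum.elim X (Sum.elim Y Z))
  have hψ : ∀ i : Fin n, ψ (gen p i) = if i ∈ E then C (a i) else T i := by
    intro i
    have h1 : ψ (gen p i) = T i + ∑ l : Fin r, Y l *
        ∏ m ∈ Finset.univ.erase i, (Z l - C (((m : Fin n) : ℕ) : ℂ)) := by
      simp only [ψ, gen, T, map_add, map_prod, map_pow, aeval_X, map_sum, map_mul, map_sub,
        Sum.elim_inl, Sum.elim_inr, MvPolynomial.aeval_C, MvPolynomial.algebraMap_eq]
    rw [h1]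
    by_cases hi : i ∈ E
    · rw [if_pos hi]
      have hlt : (E.equivFin ⟨i, hi⟩).val < r := (E.equivFin ⟨i, hi⟩).2.trans_le hE
      have hinv : inv ⟨(E.equivFin ⟨i, hi⟩).val, hlt⟩ = some ⟨i, hi⟩ := by
        simp only [inv]
        rw [dif_pos (E.equivFin ⟨i, hi⟩).2]
        congr 1
        exact E.equivFin.symm_apply_apply _
      rw [Finset.sum_eq_single (⟨(E.equivFin ⟨i, hi⟩).val, hlt⟩ : Fin r)]
      · simp only [Y, Z, hinv, Option.elim_some]
        have h2 : ∏ m ∈ Finset.univ.erase i, ((C ((i : ℕ) : ℂ) : MvPolynomial (Fin k) ℂ) -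
            C (((m : Fin n) : ℕ) : ℂ)) = C (κ i) := by
          simp only [κ]
          rw [map_prod]
          exact Finset.prod_congr rfl fun m _ => by rw [map_sub]
        rw [h2]
        have h3 : (C (κ i)⁻¹ : MvPolynomial (Fin k) ℂ) * C (κ i) = 1 := by
          rw [← C_mul, inv_mul_cancel₀ (hκ i), C_1]
        linear_combination (C (a i) - T i) * h3
      · intro l _ hl
        rcases hinvl : inv l with _ | i'
        · simp only [Y, hinvl, Option.elim_none, zero_mul]
        · have hne : (i' : Fin n) ≠ i := by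
            intro h2
            apply hl
            simp only [inv] at hinvl
            by_cases h3 : l.val < E.card
            · rw [dif_pos h3] at hinvl
              have h4 : E.equivFin.symm ⟨l.val, h3⟩ = i' := Option.some_injective _ hinvl
              have h5 : i' = ⟨i, hi⟩ := Subtype.ext h2
              rw [h5] at h4
              have h6 : (⟨l.val, h3⟩ : Fin E.card) = E.equivFin ⟨i, hi⟩ := by
                rw [← h4, Equiv.apply_symm_apply]
              apply Fin.ext
              have := congrArg Fin.val h6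
              simpa using this
            · rw [dif_neg h3] at hinvl
              exact absurd hinvl (by simp)
          have h2 : ∏ m ∈ Finset.univ.erase i, (Z l - C (((m : Fin n) : ℕ) : ℂ)) = 0 := by
            refine Finset.prod_eq_zero (Finset.mem_erase.2 ⟨hne, Finset.mem_univ _⟩) ?_
            simp only [Z, hinvl, Option.elim_some, sub_self]
          rw [h2, mul_zero]
      · intro h2
        exact (h2 (Finset.mem_univ _)).elim
    · rw [if_neg hi, Finset.sum_eq_zero, add_zero]
      intro l _
      rcases hinvl : inv l with _ | i'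
      · simp only [Y, hinvl, Option.elim_none, zero_mul]
      · have hne : (i' : Fin n) ≠ i := by
          intro h2
          exact hi (h2 ▸ i'.2)
        have h2 : ∏ m ∈ Finset.univ.erase i, (Z l - C (((m : Fin n) : ℕ) : ℂ)) = 0 := by
          refine Finset.prod_eq_zero (Finset.mem_erase.2 ⟨hne, Finset.mem_univ _⟩) ?_
          simp only [Z, hinvl, Option.elim_some, sub_self]
        rw [h2, mul_zero]
  have h1 : aeval (fun i => ∏ j : Fin k, (X j : MvPolynomial (Fin k) ℂ) ^ wgt p j i) fa =
      ψ (aeval (gen p : Fin n → MvPolynomial (Par k r) ℂ) f) := by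
    simp only [fa]
    rw [← AlgHom.comp_apply, ← AlgHom.comp_apply]
    congr 1
    apply MvPolynomial.algHom_ext
    intro i
    rw [AlgHom.comp_apply, AlgHom.comp_apply, aeval_X, aeval_X, hψ]
    split_ifs
    · rw [MvPolynomial.aeval_C, MvPolynomial.algebraMap_eq]
    · rw [aeval_X]
  rw [h1, h0, map_zero]

end Pool.Agent.TH671.US
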